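import Pool.Agent.Run7.h35.PS8.Stm

/-!
# The piece STAR of the project PS8
-/

set_option autoImplicit false

namespace Pool.Agent.Run7.h378.PS8

open Finset Run7.h35.PS8

open Classical in
/-- number of disjoint partners -/
noncomputable def dg {Ω : Type} (F B : ℕ → Ω) (I : Finset ℕ) (i : ℕ) : ℕ :=
  (I.filter (fun j => Dj F B i j)).card

open Classical in
lemma pick {Ω : Type} (F B : ℕ → Ω) (I X : Finset ℕ) (hX : X ⊆ I) (hne : X.Nonempty) :
    ∃ i ∈ X, X.card * dg F B I i ≤ ((I ×ˢ I).filter (fun a => Dj F B a.1 a.2)).card := by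
  have hD : ((I ×ˢ I).filter (fun a => Dj F B a.1 a.2)).card = ∑ i ∈ I, dg F B I i := by
    rw [Finset.card_filter, Finset.sum_product]
    apply Finset.sum_congr rfl
    intro i _
    rw [dg, Finset.card_filter]
  obtain ⟨i, hi, hmin⟩ := Finset.exists_min_image X (dg F B I) hne
  refine ⟨i, hi, ?_⟩
  rw [hD]
  have h1 : X.card * dg F B I i ≤ ∑ j ∈ X, dg F B I j := by
    have := Finset.card_nsmul_le_sum X (dg F B I) (dg F B I i) hmin
    simpa using this
  exact h1.trans (Finset.sum_le_sum_of_subset hX)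

lemma card_two {X Y Z : Finset ℕ} (h : ∀ j ∈ X, j ∈ Y ∨ j ∈ Z) : X.card ≤ Y.card + Z.card := by
  have : X ⊆ Y ∪ Z := fun j hj => mem_union.2 (h j hj)
  exact (card_le_card this).trans (card_union_le _ _)

/-- the type of the position `j` is `{a, b}` -/
def T {Ω : Type} (F B : ℕ → Ω) (a b : Ω) (j : ℕ) : Prop :=
  (F j = a ∧ B j = b) ∨ (F j = b ∧ B j = a)

lemma inner {k m : ℕ} (X E : Finset ℕ) (hX : X ⊆ Icc 2 (k - 2)) (hm : 9997 ≤ m)
    (h1 : 9000 * m < 1000000 * X.card) (h2 : 1000000 * E.card ≤ 205 * m) :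
    ∃ j ∈ X, 4 ≤ j ∧ j + 4 ≤ k ∧ j - 2 ∉ E ∧ j + 2 ∉ E := by
  by_contra hcon
  push Not at hcon
  have hsub : X ⊆ ({2, 3, k - 3, k - 2} : Finset ℕ) ∪
      (E.image (fun e => e + 2) ∪ E.image (fun e => e - 2)) := by
    intro j hj
    have hj2 := mem_Icc.1 (hX hj)
    by_cases ha : 4 ≤ j
    · by_cases hb : j + 4 ≤ k
      · by_cases hc : j - 2 ∈ E
        · refine mem_union_right _ (mem_union_left _ (mem_image.2 ⟨j - 2, hc, by omega⟩))
        · have := hcon j hj ha hb hc
          exact mem_union_right _ (mem_union_right _ (mem_image.2 ⟨j + 2, this, by omega⟩))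
      · apply mem_union_left
        simp only [mem_insert, mem_singleton]
        omega
    · apply mem_union_left
      simp only [mem_insert, mem_singleton]
      omega
  have hc := card_le_card hsub
  have h3 := card_union_le ({2, 3, k - 3, k - 2} : Finset ℕ)
      (E.image (fun e => e + 2) ∪ E.image (fun e => e - 2))
  have h4 := card_union_le (E.image (fun e => e + 2)) (E.image (fun e => e - 2))
  have h5 : (E.image (fun e => e + 2)).card ≤ E.card := card_image_le
  have h6 : (E.image (fun e => e - 2)).card ≤ E.card := card_image_le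
  have h7 : ({2, 3, k - 3, k - 2} : Finset ℕ).card ≤ 4 := card_le_four
  omega

lemma scale {m x d D c : ℕ} (hD : 1000000 * D ≤ m ^ 2) (hx : x * d ≤ D)
    (hc : c * m < 1000000 * x) : c * d ≤ m := by
  by_contra hlt
  push Not at hlt
  have h1 : 1000000 * (x * d) ≤ m * m := by nlinarith
  have hm : 0 < m ∨ m = 0 := by omega
  rcases hm with hm | hm
  · have h2 : m * m < m * (c * d) := Nat.mul_lt_mul_of_pos_left hlt hm
    have h3 : m * (c * d) ≤ 1000000 * x * d := by
      calc m * (c * d) = (c * m) * d := by ring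
        _ ≤ (1000000 * x) * d := Nat.mul_le_mul_right _ hc.le
    nlinarith
  · subst hm
    have hd : 0 < d := by
      rcases Nat.eq_zero_or_pos d with h | h
      · subst h; simp at hlt
      · exact h
    have hxp : 0 < x := by
      rcases Nat.eq_zero_or_pos x with h | h
      · subst h; simp at hc
      · exact h
    have : 0 < x * d := Nat.mul_pos hxp hd
    omega

open Classical in
theorem t_STAR : S_STAR := by
  intro Ω bar hbar F B k hk h1 h2 h3
  have hm9 : 9997 ≤ k - 3 := by omega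
  have hcI : (Icc 2 (k - 2)).card = k - 3 := by rw [Nat.card_Icc]; omega
  by_contra hcon
  push Not at hcon
  -- step 1
  obtain ⟨i0, hi0, hd0⟩ := pick F B (Icc 2 (k - 2)) (Icc 2 (k - 2)) subset_rfl
    (by rw [← card_pos, hcI]; omega)
  rw [hcI] at hd0
  have hs0 : 999999 * dg F B (Icc 2 (k - 2)) i0 ≤ k - 3 := scale h3 hd0 (by omega)
  obtain ⟨p, hp⟩ : ∃ p, F i0 = p := ⟨_, rfl⟩
  obtain ⟨q, hq⟩ : ∃ q, B i0 = q := ⟨_, rfl⟩
  set BA : Finset ℕ := (Icc 2 (k - 2)).filter (fun j => (F j = q ∨ B j = q) ∧ F j ≠ p ∧ B j ≠ p)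
    with hBA
  set AB : Finset ℕ := (Icc 2 (k - 2)).filter (fun j => (F j = p ∨ B j = p) ∧ F j ≠ q ∧ B j ≠ q)
    with hAB
  have hcBA := (hcon p).trans_le (Nat.mul_le_mul_left 100 (card_two (Y := BA)
    (Z := (Icc 2 (k - 2)).filter (fun j => Dj F B i0 j)) (by
      intro j hj
      rw [mem_filter] at hj
      by_cases hjq : F j = q ∨ B j = q
      · exact Or.inl (mem_filter.2 ⟨hj.1, hjq, hj.2.1, hj.2.2⟩)
      · push Not at hjq
        refine Or.inr (mem_filter.2 ⟨hj.1, ?_⟩)
        unfold Dj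
        rw [hp, hq]
        exact ⟨fun h => hj.2.1 h.symm, fun h => hj.2.2 h.symm, fun h => hjq.1 h.symm,
          fun h => hjq.2 h.symm⟩)))
  have hcAB := (hcon q).trans_le (Nat.mul_le_mul_left 100 (card_two (Y := AB)
    (Z := (Icc 2 (k - 2)).filter (fun j => Dj F B i0 j)) (by
      intro j hj
      rw [mem_filter] at hj
      by_cases hjq : F j = p ∨ B j = p
      · exact Or.inl (mem_filter.2 ⟨hj.1, hjq, hj.2.1, hj.2.2⟩)
      · push Not at hjq
        refine Or.inr (mem_filter.2 ⟨hj.1, ?_⟩)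
        unfold Dj
        rw [hp, hq]
        exact ⟨fun h => hjq.1 h.symm, fun h => hjq.2 h.symm, fun h => hj.2.1 h.symm,
          fun h => hj.2.2 h.symm⟩)))
  have e0 : ((Icc 2 (k - 2)).filter (fun j => Dj F B i0 j)).card = dg F B (Icc 2 (k - 2)) i0 := rfl
  rw [e0] at hcBA hcAB
  have hBA1 : 9998 * (k - 3) < 1000000 * BA.card := by omega
  have hAB1 : 9998 * (k - 3) < 1000000 * AB.card := by omega
  have hqp : q ≠ p := by
    have : 0 < BA.card := by omega
    obtain ⟨j, hj⟩ := card_pos.1 this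
    rw [hBA, mem_filter] at hj
    rintro rfl
    rcases hj.2.1 with h | h
    · exact hj.2.2.1 h
    · exact hj.2.2.2 h
  -- step 2
  obtain ⟨j1, hj1, hd1⟩ := pick F B (Icc 2 (k - 2)) AB (filter_subset _ _)
    (by rw [← card_pos]; omega)
  have hs1 : 9998 * dg F B (Icc 2 (k - 2)) j1 ≤ k - 3 := scale h3 hd1 hAB1
  rw [hAB, mem_filter] at hj1
  obtain ⟨r, hr, hrq⟩ : ∃ r, T F B p r j1 ∧ r ≠ q := by
    rcases hj1.2.1 with h | h
    · exact ⟨B j1, Or.inl ⟨h, rfl⟩, hj1.2.2.2⟩
    · exact ⟨F j1, Or.inr ⟨rfl, h⟩, hj1.2.2.1⟩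
  have hD1 : ∀ j, ¬ Dj F B j1 j → (F j = p ∨ B j = p) ∨ (F j = r ∨ B j = r) := by
    intro j hj
    by_contra hc
    push Not at hc
    apply hj
    unfold Dj
    rcases hr with ⟨ha, hb⟩ | ⟨ha, hb⟩
    · rw [ha, hb]
      exact ⟨fun h => hc.1.1 h.symm, fun h => hc.1.2 h.symm, fun h => hc.2.1 h.symm,
        fun h => hc.2.2 h.symm⟩
    · rw [ha, hb]
      exact ⟨fun h => hc.2.1 h.symm, fun h => hc.2.2 h.symm, fun h => hc.1.1 h.symm,
        fun h => hc.1.2 h.symm⟩
  have hT1 : ∀ j, (F j = q ∨ B j = q) → F j ≠ p → B j ≠ p → ¬ Dj F B j1 j → T F B q r j := by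
    intro j hj ha hb hc
    rcases hD1 j hc with h | h
    · rcases h with h | h
      · exact absurd h ha
      · exact absurd h hb
    · rcases hj with hj | hj
      · rcases h with h | h
        · exact absurd (h.symm.trans hj) hrq
        · exact Or.inl ⟨hj, h⟩
      · rcases h with h | h
        · exact Or.inr ⟨h, hj⟩
        · exact absurd (h.symm.trans hj) hrq
  set X2 : Finset ℕ := (Icc 2 (k - 2)).filter (fun j => T F B q r j ∧ F j ≠ p ∧ B j ≠ p) with hX2
  have hcX2 := card_two (X := BA) (Y := X2)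
    (Z := (Icc 2 (k - 2)).filter (fun j => Dj F B j1 j)) (by
      intro j hj
      rw [hBA, mem_filter] at hj
      by_cases hc : Dj F B j1 j
      · exact Or.inr (mem_filter.2 ⟨hj.1, hc⟩)
      · exact Or.inl (mem_filter.2 ⟨hj.1, hT1 j hj.2.1 hj.2.2.1 hj.2.2.2 hc, hj.2.2.1,
          hj.2.2.2⟩))
  have e1 : ((Icc 2 (k - 2)).filter (fun j => Dj F B j1 j)).card = dg F B (Icc 2 (k - 2)) j1 := rfl
  rw [e1] at hcX2
  have hX21 : 9897 * (k - 3) < 1000000 * X2.card := by omega
  have hrp : r ≠ p := by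
    have : 0 < X2.card := by omega
    obtain ⟨j, hj⟩ := card_pos.1 this
    rw [hX2, mem_filter] at hj
    rintro rfl
    rcases hj.2.1 with h | h
    · exact hj.2.2.2 h.2
    · exact hj.2.2.1 h.1
  -- step 3
  obtain ⟨j2, hj2, hd2⟩ := pick F B (Icc 2 (k - 2)) X2 (filter_subset _ _)
    (by rw [← card_pos]; omega)
  have hs2 : 9897 * dg F B (Icc 2 (k - 2)) j2 ≤ k - 3 := scale h3 hd2 hX21
  rw [hX2, mem_filter] at hj2
  have hD2 : ∀ j, ¬ Dj F B j2 j → (F j = q ∨ B j = q) ∨ (F j = r ∨ B j = r) := by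
    intro j hj
    by_contra hc
    push Not at hc
    apply hj
    unfold Dj
    rcases hj2.2.1 with ⟨ha, hb⟩ | ⟨ha, hb⟩
    · rw [ha, hb]
      exact ⟨fun h => hc.1.1 h.symm, fun h => hc.1.2 h.symm, fun h => hc.2.1 h.symm,
        fun h => hc.2.2 h.symm⟩
    · rw [ha, hb]
      exact ⟨fun h => hc.2.1 h.symm, fun h => hc.2.2 h.symm, fun h => hc.1.1 h.symm,
        fun h => hc.1.2 h.symm⟩
  have hT2 : ∀ j, (F j = p ∨ B j = p) → F j ≠ q → B j ≠ q → ¬ Dj F B j2 j → T F B p r j := by
    intro j hj ha hb hc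
    rcases hD2 j hc with h | h
    · rcases h with h | h
      · exact absurd h ha
      · exact absurd h hb
    · rcases hj with hj | hj
      · rcases h with h | h
        · exact absurd (h.symm.trans hj) hrp
        · exact Or.inl ⟨hj, h⟩
      · rcases h with h | h
        · exact Or.inr ⟨h, hj⟩
        · exact absurd (h.symm.trans hj) hrp
  set E : Finset ℕ := (Icc 2 (k - 2)).filter
    (fun j => ¬ T F B p q j ∧ ¬ T F B q r j ∧ ¬ T F B p r j) with hE
  have hcE : E.card ≤ dg F B (Icc 2 (k - 2)) i0 + (dg F B (Icc 2 (k - 2)) j1 +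
      dg F B (Icc 2 (k - 2)) j2) := by
    have ha := card_two (X := E) (Y := (Icc 2 (k - 2)).filter (fun j => Dj F B i0 j))
      (Z := (Icc 2 (k - 2)).filter (fun j => Dj F B j1 j) ∪
        (Icc 2 (k - 2)).filter (fun j => Dj F B j2 j)) (by
        intro j hj
        rw [hE, mem_filter] at hj
        obtain ⟨hjI, hn1, hn2, hn3⟩ := hj
        by_cases hc0 : Dj F B i0 j
        · exact Or.inl (mem_filter.2 ⟨hjI, hc0⟩)
        · right
          by_cases hjp : F j = p ∨ B j = p
          · by_cases hjq : F j = q ∨ B j = q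
            · exfalso
              apply hn1
              rcases hjp with h | h
              · rcases hjq with h' | h'
                · exact absurd (h'.symm.trans h) hqp
                · exact Or.inl ⟨h, h'⟩
              · rcases hjq with h' | h'
                · exact Or.inr ⟨h', h⟩
                · exact absurd (h'.symm.trans h) hqp
            · push Not at hjq
              by_cases hc2 : Dj F B j2 j
              · exact mem_union_right _ (mem_filter.2 ⟨hjI, hc2⟩)
              · exact absurd (hT2 j hjp hjq.1 hjq.2 hc2) hn3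
          · by_cases hjq : F j = q ∨ B j = q
            · push Not at hjp
              by_cases hc1 : Dj F B j1 j
              · exact mem_union_left _ (mem_filter.2 ⟨hjI, hc1⟩)
              · exact absurd (hT1 j hjq hjp.1 hjp.2 hc1) hn2
            · exfalso
              push Not at hjp hjq
              apply hc0
              unfold Dj
              rw [hp, hq]
              exact ⟨fun h => hjp.1 h.symm, fun h => hjp.2 h.symm, fun h => hjq.1 h.symm,
                fun h => hjq.2 h.symm⟩)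
    have hb := card_union_le ((Icc 2 (k - 2)).filter (fun j => Dj F B j1 j))
        ((Icc 2 (k - 2)).filter (fun j => Dj F B j2 j))
    have e2 : ((Icc 2 (k - 2)).filter (fun j => Dj F B j2 j)).card =
      dg F B (Icc 2 (k - 2)) j2 := rfl
    rw [e1, e2] at hb
    rw [e0] at ha
    omega
  have hE1 : 1000000 * E.card ≤ 205 * (k - 3) := by omega
  -- step 4
  set X1 : Finset ℕ := (Icc 2 (k - 2)).filter (fun j => T F B p q j) with hX1
  have hcX1 := (hcon r).trans_le (Nat.mul_le_mul_left 100 (card_two (Y := X1) (Z := E) (by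
      intro j hj
      rw [mem_filter] at hj
      by_cases ht : T F B p q j
      · exact Or.inl (mem_filter.2 ⟨hj.1, ht⟩)
      · refine Or.inr (mem_filter.2 ⟨hj.1, ht, ?_, ?_⟩)
        · rintro (h | h)
          · exact hj.2.2 h.2
          · exact hj.2.1 h.1
        · rintro (h | h)
          · exact hj.2.2 h.2
          · exact hj.2.1 h.1)))
  have hX11 : 9000 * (k - 3) < 1000000 * X1.card := by omega
  have hmem : ∀ j ∈ Icc 2 (k - 2), j ∉ E → (F j = p ∨ F j = q ∨ F j = r) ∧
      (B j = p ∨ B j = q ∨ B j = r) := by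
    intro j hj hjE
    have : T F B p q j ∨ T F B q r j ∨ T F B p r j := by
      by_contra hc
      push Not at hc
      exact hjE (mem_filter.2 ⟨hj, hc⟩)
    rcases this with (h | h) | (h | h) | (h | h)
    · exact ⟨Or.inl h.1, Or.inr (Or.inl h.2)⟩
    · exact ⟨Or.inr (Or.inl h.1), Or.inl h.2⟩
    · exact ⟨Or.inr (Or.inl h.1), Or.inr (Or.inr h.2)⟩
    · exact ⟨Or.inr (Or.inr h.1), Or.inr (Or.inl h.2)⟩
    · exact ⟨Or.inl h.1, Or.inr (Or.inr h.2)⟩
    · exact ⟨Or.inr (Or.inr h.1), Or.inl h.2⟩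
  have hbars : ∀ j, 4 ≤ j → j + 4 ≤ k → j - 2 ∉ E → j + 2 ∉ E →
      (bar (B j) = p ∨ bar (B j) = q ∨ bar (B j) = r) ∧
      (bar (F j) = p ∨ bar (F j) = q ∨ bar (F j) = r) := by
    intro j ha hb hc hd
    constructor
    · have h := (hmem (j - 2) (mem_Icc.2 ⟨by omega, by omega⟩) hc).1
      have h' := h1 (j - 2) (by omega) (by omega)
      rw [show j - 2 + 2 = j by omega] at h'
      rw [h', hbar]
      exact h
    · have h := (hmem (j + 2) (mem_Icc.2 ⟨by omega, by omega⟩) hd).2
      have h' := h1 j (by omega) (by omega)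
      rw [← h']
      exact h
  obtain ⟨u, hu, hu1, hu2, hu3, hu4⟩ := inner X1 E (filter_subset _ _) hm9 hX11 hE1
  obtain ⟨v, hv, hv1, hv2, hv3, hv4⟩ := inner X2 E (filter_subset _ _) hm9 (by omega) hE1
  rw [hX1, mem_filter] at hu
  rw [hX2, mem_filter] at hv
  have hbu := hbars u hu1 hu2 hu3 hu4
  have hbv := hbars v hv1 hv2 hv3 hv4
  have hbp : bar p = p ∨ bar p = q ∨ bar p = r := by
    rcases hu.2 with h | h
    · rw [h.1] at hbu; exact hbu.2
    · rw [h.2] at hbu; exact hbu.1
  have hbq : bar q = p ∨ bar q = q ∨ bar q = r := by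
    rcases hu.2 with h | h
    · rw [h.2] at hbu; exact hbu.1
    · rw [h.1] at hbu; exact hbu.2
  have hbr : bar r = p ∨ bar r = q ∨ bar r = r := by
    rcases hv.2.1 with h | h
    · rw [h.2] at hbv; exact hbv.1
    · rw [h.1] at hbv; exact hbv.2
  have hnp : bar p ≠ p := fun h => (h2 i0 hi0).1 (by rw [hp, h])
  have hnq : bar q ≠ q := fun h => (h2 i0 hi0).2 (by rw [hq, h])
  have hnr : bar r ≠ r := by
    intro h
    rcases hj2.2.1 with h' | h'
    · exact (h2 j2 hj2.1).2 (by rw [h'.2, h])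
    · exact (h2 j2 hj2.1).1 (by rw [h'.1, h])
  rcases hbp with h | h | h
  · exact hnp h
  · rcases hbr with h' | h' | h'
    · have := hbar r
      rw [h', h] at this
      exact hrq this.symm
    · have h'' := hbar r
      have h3' := hbar p
      rw [h] at h3'
      rw [h', h3'] at h''
      exact hrp h''.symm
    · exact hnr h'
  · rcases hbq with h' | h' | h'
    · have := hbar q
      rw [h', h] at this
      exact hrq this
    · exact hnq h'
    · have h'' := hbar q
      have h3' := hbar p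
      rw [h] at h3'
      rw [h', h3'] at h''
      exact hqp h''.symm

end Pool.Agent.Run7.h378.PS8
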